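import Pool.Agent.Helper17.SA.St2

/-!
# Project SA (MP_21f9f3_al), module CER: regular double cosets
-/

set_option autoImplicit false

namespace Pool.Agent.Helper28.SA.M_CER

open Equiv Pool.Agent.Helper17.SA

theorem not_bad_mul {G : Type} [Group G] (H : Subgroup G) (x a b : G) (ha : a ∈ H) (hb : b ∈ H)
    (h : ¬ Bad H x) : ¬ Bad H (a * x * b) := by
  rintro ⟨y, hy, hy1, hy2⟩
  apply h
  refine ⟨b * y * b⁻¹, H.mul_mem (H.mul_mem hb hy) (H.inv_mem hb), ?_, ?_⟩
  · intro h1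
    apply hy1
    have h2 : y = b⁻¹ * (b * y * b⁻¹) * b := by group
    rw [h2, h1]
    group
  · have h2 : x * (b * y * b⁻¹) * x⁻¹ = a⁻¹ * (a * x * b * y * (a * x * b)⁻¹) * a := by group
    rw [h2]
    exact H.mul_mem (H.mul_mem (H.inv_mem ha) hy2) ha

theorem pCER : StCER := by
  classical
  intro G _ _ H k x hbad hdis
  let f : Fin k × H × H → {g : G // ¬ Bad H g} := fun t =>
    ⟨(t.2.1 : G) * x t.1 * (t.2.2 : G),
      not_bad_mul H (x t.1) t.2.1 t.2.2 t.2.1.2 t.2.2.2 (hbad t.1)⟩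
  have hinj : Function.Injective f := by
    rintro ⟨i, ⟨a, ha⟩, ⟨b, hb⟩⟩ ⟨j, ⟨c, hc⟩, ⟨d, hd⟩⟩ h
    have h1 : a * x i * b = c * x j * d := congrArg Subtype.val h
    have h2 : c⁻¹ * a * x i * (b * d⁻¹) = x j := by
      have : c⁻¹ * a * x i * (b * d⁻¹) = c⁻¹ * (a * x i * b) * d⁻¹ := by group
      rw [this, h1]
      group
    have hij : i = j := by
      by_contra hne
      exact hdis i j hne (c⁻¹ * a) (H.mul_mem (H.inv_mem hc) ha) (b * d⁻¹)
        (H.mul_mem hb (H.inv_mem hd)) h2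
    subst hij
    have h3 : x i * (b * d⁻¹) * (x i)⁻¹ = a⁻¹ * c := by
      have : x i * (b * d⁻¹) * (x i)⁻¹ = a⁻¹ * (a * x i * b) * d⁻¹ * (x i)⁻¹ := by group
      rw [this, h1]
      group
    have h4 : b * d⁻¹ = 1 := by
      by_contra hne
      exact hbad i ⟨b * d⁻¹, H.mul_mem hb (H.inv_mem hd), hne,
        h3 ▸ H.mul_mem (H.inv_mem ha) hc⟩
    have hbd : b = d := mul_inv_eq_one.1 h4
    subst hbd
    rw [h4] at h3
    have hac : a = c := by
      have : a⁻¹ * c = 1 := by rw [← h3]; group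
      exact inv_mul_eq_one.1 this
    subst hac
    rfl
  have h1 : Nat.card (Fin k × H × H) ≤ Nat.card {g : G // ¬ Bad H g} :=
    Nat.card_le_card_of_injective f hinj
  rw [Nat.card_prod, Nat.card_prod, Nat.card_fin] at h1
  have h2 : Nat.card {g : G // Bad H g} + Nat.card {g : G // ¬ Bad H g} = Nat.card G := by
    rw [← Nat.card_sum]
    exact Nat.card_congr (Equiv.sumCompl _)
  unfold bad
  have h3 : k * Nat.card H ^ 2 = k * (Nat.card H * Nat.card H) := by ring
  rw [h3]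
  omega

end Pool.Agent.Helper28.SA.M_CER
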