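import Pool.Agent.Helper17.SA.St3
import Pool.Agent.Helper15.SA.M_NUM

set_option autoImplicit false

/-! Project SA (MP_21f9f3_al), module NM2: numerical check in the kernel with a margin. -/

namespace Pool.Agent.Helper28.SA

open Equiv Pool.Agent.Helper17.SA Pool.Agent.Helper15.SA

/-- The check. -/
def chk2 (m : ℕ) : Bool :=
  Nat.blt (Wc 2 m + Wc 3 m / 2 + Wc 5 m / 4 + Wc 7 m / 6 + m.factorial / 10000 + 2 * 4 ^ (m - 1))
    m.factorial

set_option maxRecDepth 100000 in
theorem chk2_ok : ∀ m < 150, 22 ≤ m → chk2 m = true := by decide +kernel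

theorem pNM2 : StNM2 := by
  intro m h1 h2
  have h := chk2_ok m h2 h1
  unfold chk2 at h
  have h3 := Nat.le_of_ble_eq_true h
  have hx : (3 : ℕ) ^ 74 < xx := by decide +kernel
  have hb : ∀ p, 2 ≤ p → 3 ^ (m / p) < xx := by
    intro p hp
    refine lt_of_le_of_lt (Nat.pow_le_pow_right (by norm_num) ?_) hx
    calc m / p ≤ m / 2 := Nat.div_le_div_left hp (by norm_num)
      _ ≤ 74 := by omega
  rw [Wc_eq 2 m (hb 2 (by norm_num)), Wc_eq 3 m (hb 3 (by norm_num)),
    Wc_eq 5 m (hb 5 (by norm_num)), Wc_eq 7 m (hb 7 (by norm_num))] at h3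
  exact h3

end Pool.Agent.Helper28.SA
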