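import Pool.Agent.Helper17.SA.St5
import Pool.Agent.Helper60.SA.M_CH

/-! Project SA (MP_21f9f3_al), module FI6: second final theorem of part 5 -/

set_option autoImplicit false

open Equiv Pool.Agent.Helper17.SA
open scoped Pointwise

namespace Pool.Agent.Helper28.SA.FI6

open Pool.Agent.Helper64.SA in
theorem star_iso {G H : Type} [Group G] [Group H] [Finite G] [Finite H] (e : G ≃* H) (q : ℕ)
    (hq : q.Prime) (h : StarAt H q) : StarAt G q := by
  haveI : Fact q.Prime := ⟨hq⟩
  obtain ⟨P, Q, hPQ⟩ := h
  refine ⟨pull e q P, pull e q Q, ?_⟩
  intro x hx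
  rw [mem_iInf_iff e]
  apply hPQ
  rw [Subgroup.mem_inf] at hx ⊢
  rw [mem_pull, mem_pull] at hx
  exact hx

theorem alt_simple (m : ℕ) (hm : 5 ≤ m) : IsSimpleGroup (alternatingGroup (Fin m)) := by
  apply alternatingGroup.isSimpleGroup
  rw [Nat.card_eq_fintype_card, Fintype.card_fin]
  exact hm

theorem alt_noncomm (m : ℕ) (hm : 5 ≤ m) : ∃ a b : alternatingGroup (Fin m), a * b ≠ b * a := by
  by_contra hcon
  push Not at hcon
  have hs := alt_simple m hm
  have hc : Subgroup.center (alternatingGroup (Fin m)) = ⊥ := by
    apply alternatingGroup.center_eq_bot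
    rw [Nat.card_eq_fintype_card, Fintype.card_fin]
    omega
  have ht : Subgroup.center (alternatingGroup (Fin m)) = ⊤ := by
    rw [eq_top_iff]
    intro x _
    rw [Subgroup.mem_center_iff]
    intro y
    exact hcon y x
  rw [hc] at ht
  exact bot_ne_top ht

theorem sync_triv (G : Type) [Group G] [Subsingleton G] {ι : Type} (p : ι → ℕ) :
    SyncFor G p := by
  intro P
  refine ⟨1, fun i => ?_⟩
  exact Subsingleton.elim _ _

theorem pFI6 : StCH5 → StAMP → StHAL → StISO → StFI6 := by
  intro hCH hAMP hHAL _ G _ _ ι _ p hp hinj hst hser
  -- downward induction over the normal subgroups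
  have key : ∀ n : ℕ, ∀ (M : Subgroup G) [M.Normal], Nat.card (G ⧸ M) = n →
      SyncFor (G ⧸ M) p := by
    intro n
    induction n using Nat.strong_induction_on with
    | _ n ih =>
      intro M hM hn
      by_cases hT : M = ⊤
      · subst hT
        haveI : Subsingleton (G ⧸ (⊤ : Subgroup G)) := QuotientGroup.subsingleton_quotient_top
        exact sync_triv _ p
      · obtain ⟨M', hM', hlt, hcase⟩ := hser M hT
        haveI := hM'
        have hle : M ≤ M' := hlt.le
        have hcard : Nat.card (G ⧸ M') < n := by
          rw [← hn]
          have h1 : M.index = Nat.card (G ⧸ M) := rfl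
          have h2 : M'.index = Nat.card (G ⧸ M') := rfl
          rw [← h1, ← h2]
          exact Subgroup.index_strictAnti hlt
        have hnext : SyncFor (G ⧸ M') p := ih _ hcard M' rfl
        -- the group G ⧸ M
        let B : Subgroup (G ⧸ M) := M'.map (QuotientGroup.mk' M)
        haveI hB : B.Normal := inferInstance
        have hB1 : SyncFor ((G ⧸ M) ⧸ B) p :=
          Pool.Agent.Helper60.SA.sync_iso
            (QuotientGroup.quotientQuotientEquivQuotient M M' hle).symm p hp hnext
        let N : ℕ → Subgroup (G ⧸ M) := fun j => if j = 0 then ⊥ else B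
        haveI hN : ∀ j, (N j).Normal := by
          intro j
          by_cases hj : j = 0
          · simp only [N, hj, if_true]
            infer_instance
          · simp only [N, hj, if_false]
            exact hB
        have hN0 : N 0 = ⊥ := by simp [N]
        have hN1 : N 1 = B := by simp [N]
        have eQ : ((G ⧸ M) ⧸ N 0) ≃* (G ⧸ M) :=
          (QuotientGroup.quotientMulEquivOfEq hN0).trans QuotientGroup.quotientBot
        have hinj0 : Function.Injective (QuotientGroup.mk' (N 0)) := by
          rw [injective_iff_map_eq_one]
          intro a ha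
          have h1 : a ∈ N 0 := (QuotientGroup.eq_one_iff a).mp ha
          rw [hN0, Subgroup.mem_bot] at h1
          exact h1
        have eB : ((N 1).map (QuotientGroup.mk' (N 0))) ≃* B :=
          ((N 1).equivMapOfInjective _ hinj0).symm.trans (MulEquiv.subgroupCongr hN1)
        refine hCH (G ⧸ M) 1 N hN0 ?_ ι p hp hinj ?_ ?_
        · intro j hj
          have hj0 : j = 0 := by omega
          subst hj0
          rw [hN0]
          exact bot_le
        · intro j hj
          have hj0 : j = 0 := by omega
          subst hj0
          have hstar : ∀ i, (p i ≠ 2 ∧ ∀ c : ℕ, p i + 1 ≠ 2 ^ c) ∨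
              StarAt ((G ⧸ M) ⧸ N 0) (p i) := by
            intro i
            rcases hst i with h | h
            · exact Or.inl h
            · exact Or.inr (star_iso eQ _ (hp i) (h M))
          rcases hcase with hnil | ⟨Ω, hΩ, m, hm, ⟨e⟩⟩
          · left
            refine ⟨?_, ?_⟩
            · haveI : Group.IsNilpotent B := hnil
              exact (Group.isNilpotent_congr eB).mpr hnil
            · intro i
              rcases hstar i with h | h
              · exact Or.inr ⟨h.1, Or.inr h.2⟩
              · exact Or.inl h
          · right
            refine ⟨Ω, hΩ, fun _ => alternatingGroup (Fin m), fun _ => inferInstance,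
              fun _ => alt_simple m hm, fun _ => alt_noncomm m hm, ?_, ⟨eB.trans e⟩⟩
            by_cases h7 : m = 7 ∨ 9 ≤ m
            · exact Or.inl fun _ => hAMP m h7
            · right
              refine ⟨fun _ => hHAL m (by omega), ?_⟩
              intro i hi
              rcases hstar i with h | h
              · exact absurd hi h.1
              · rw [hi] at h
                exact h
        · exact Pool.Agent.Helper60.SA.sync_iso (QuotientGroup.quotientMulEquivOfEq hN1).symm
            p hp hB1
  exact Pool.Agent.Helper60.SA.sync_iso QuotientGroup.quotientBot p hp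
    (key _ (⊥ : Subgroup G) rfl)

end Pool.Agent.Helper28.SA.FI6
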